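import Pool.Agent.J6H9.EW.Stm

/-!
# Project EW (MP_f6e960_lc): the second step
-/

set_option autoImplicit false

namespace Pool.Agent.J6H45.EW

open Filter Topology Pool.Agent.J6H9.EU Pool.Agent.J6H9.EV Pool.Agent.J6H9.EW

private theorem F_nonneg {f : ℕ → ℝ} (hf : ∀ n, 0 < f n) (n : ℕ) : 0 ≤ F f n := by
  unfold F
  exact Finset.sum_nonneg fun i _ => (hf i).le

private theorem F_mono {f : ℕ → ℝ} (hf : ∀ n, 0 < f n) : Monotone (F f) := by
  intro m n h
  unfold F
  exact Finset.sum_le_sum_of_subset_of_nonneg (Finset.range_mono h) fun i _ _ => (hf i).le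

private theorem Bl_uniq {c c' x : ℕ} (h : x ∈ Bl c) (h' : x ∈ Bl c') : c = c' := by
  unfold Bl at h h'
  rw [Finset.mem_Ico] at h h'
  have h1 : 2 ^ (c + 1) < 2 ^ (c' + 2) := lt_of_le_of_lt h.1 h'.2
  have h2 : 2 ^ (c' + 1) < 2 ^ (c + 2) := lt_of_le_of_lt h'.1 h.2
  rw [Nat.pow_lt_pow_iff_right (by norm_num)] at h1 h2
  omega

private theorem block {f : ℕ → ℝ} (ha : Antitone f) (c : ℕ) :
    F f (2 ^ (c + 3)) - F f (2 ^ (c + 2)) ≤ 4 * ((2 : ℝ) ^ c * f (2 ^ (c + 2))) := by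
  have h1 : F f (2 ^ (c + 3)) - F f (2 ^ (c + 2)) =
      ∑ i ∈ Finset.Ico (2 ^ (c + 2)) (2 ^ (c + 3)), f i := by
    unfold F
    rw [Finset.sum_Ico_eq_sub _ (Nat.pow_le_pow_right (by norm_num) (by omega))]
  rw [h1]
  have h2 := Finset.sum_le_card_nsmul (Finset.Ico (2 ^ (c + 2)) (2 ^ (c + 3))) f (f (2 ^ (c + 2)))
    (fun i hi => ha (Finset.mem_Ico.1 hi).1)
  refine h2.trans (le_of_eq ?_)
  rw [Nat.card_Ico, show 2 ^ (c + 3) - 2 ^ (c + 2) = 2 ^ (c + 2) by
    have : 2 ^ (c + 3) = 2 * 2 ^ (c + 2) := by ring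
    omega, nsmul_eq_mul]
  push_cast
  ring

private theorem tele {f : ℕ → ℝ} (ha : Antitone f) (a b : ℕ) (hab : a ≤ b) :
    F f (2 ^ (b + 2)) - F f (2 ^ (a + 2)) ≤
      ∑ c ∈ Finset.Ico a b, 4 * ((2 : ℝ) ^ c * f (2 ^ (c + 2))) := by
  induction b, hab using Nat.le_induction with
  | base => simp
  | succ b hab ih =>
    rw [Finset.sum_Ico_succ_top hab]
    have := block ha b
    linarith

theorem main : S_ST2 := by
  classical
  intro f hf ha hF ψ hU LQ HQ LP HP q p H hqp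
  obtain ⟨ε, hε, M, hM⟩ := hU (1 / 16) (by norm_num)
  obtain ⟨r, hr⟩ := exists_pow_lt_of_lt_one hε (show (1 / 2 : ℝ) < 1 by norm_num)
  obtain ⟨c₀, hc₀⟩ := hqp r
  obtain ⟨a, hac, haM⟩ : ∃ a, c₀ ≤ a ∧ M ≤ a := ⟨max c₀ M, le_max_left _ _, le_max_right _ _⟩
  obtain ⟨n0, hn0⟩ := (hF.eventually_ge_atTop (2 * F f (2 ^ (a + 2)))).exists_forall_of_atTop
  obtain ⟨b, hab, hbn⟩ : ∃ b, a + 1 ≤ b ∧ n0 ≤ b := ⟨max (a + 1) n0, le_max_left _ _, le_max_right _ _⟩
  have hFb : 2 * F f (2 ^ (a + 2)) ≤ F f (2 ^ (b + 1)) := by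
    apply hn0
    have := Nat.lt_two_pow_self (n := b + 1)
    omega
  have hex : ∀ c, ∃ e : ℕ → ℕ, Set.InjOn e (HP c) ∧ ∀ x ∈ HP c, e x ∈ LQ (c + r) := by
    intro c
    obtain ⟨g⟩ := Function.Embedding.nonempty_of_card_le (α := HP c) (β := LQ (c + r)) (by
      rw [Fintype.card_coe, Fintype.card_coe, H.chp, H.clq]
      exact Nat.pow_le_pow_right (by norm_num) (by omega))
    refine ⟨fun x => if h : x ∈ HP c then (g ⟨x, h⟩ : ℕ) else 0, ?_, ?_⟩
    · intro x hx y hy hxy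
      rw [Finset.mem_coe] at hx hy
      simp only [dif_pos hx, dif_pos hy] at hxy
      have := g.injective (Subtype.ext hxy)
      exact congrArg Subtype.val this
    · intro x hx
      simp only [dif_pos hx]
      exact (g ⟨x, hx⟩).2
  choose e he1 he2 using hex
  have hpow : ∀ c, a ≤ c → M ≤ 2 ^ (c + 1) := by
    intro c hc
    have := Nat.lt_two_pow_self (n := c + 1)
    omega
  have hlog : ∀ c, ∀ x ∈ HP c, Nat.log 2 x - 1 = c := by
    intro c x hx
    have h1 := H.hp c hx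
    unfold Bl at h1
    rw [Finset.mem_Ico] at h1
    rw [Nat.log_eq_of_pow_le_of_lt_pow h1.1 h1.2]
    omega
  obtain ⟨B₁, hB₁⟩ : ∃ S : Finset ℕ, S = (Finset.Ico a b).biUnion fun c => (HP c).image (e c) :=
    ⟨_, rfl⟩
  obtain ⟨C₂, hC₂⟩ : ∃ S : Finset ℕ, S = (Finset.Ico a b).biUnion HP := ⟨_, rfl⟩
  have mB : ∀ x ∈ B₁, ∃ c, a ≤ c ∧ c < b ∧ ∃ y ∈ HP c, e c y = x := by
    intro x hx
    rw [hB₁, Finset.mem_biUnion] at hx
    obtain ⟨c, hc, hx⟩ := hx
    rw [Finset.mem_Ico] at hc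
    rw [Finset.mem_image] at hx
    exact ⟨c, hc.1, hc.2, hx⟩
  have mC : ∀ x ∈ C₂, ∃ c, a ≤ c ∧ c < b ∧ x ∈ HP c := by
    intro x hx
    rw [hC₂, Finset.mem_biUnion] at hx
    obtain ⟨c, hc, hx⟩ := hx
    rw [Finset.mem_Ico] at hc
    exact ⟨c, hc.1, hc.2, hx⟩
  have key := hM B₁ ∅ ∅ C₂ ?_ (by simp) (by simp) ?_ ?_ ?_
  · -- the contradiction
    have h1 := key.2 (2 ^ (b + 1))
    have h2 : C₂.filter (· < 2 ^ (b + 1)) = C₂ := by
      rw [Finset.filter_eq_self]
      intro x hx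
      obtain ⟨c, -, hcb, hxc⟩ := mC x hx
      have h3 := H.hp c hxc
      unfold Bl at h3
      rw [Finset.mem_Ico] at h3
      exact lt_of_lt_of_le h3.2 (Nat.pow_le_pow_right (by norm_num) (by omega))
    rw [h2, hC₂, Finset.sum_biUnion] at h1
    · have h3 : ∀ c ∈ Finset.Ico a b, (2 : ℝ) ^ c * f (2 ^ (c + 2)) ≤ ∑ x ∈ HP c, f x := by
        intro c _
        have h4 := Finset.card_nsmul_le_sum (HP c) f (f (2 ^ (c + 2))) (fun x hx => by
          have h3 := H.hp c hx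
          unfold Bl at h3
          rw [Finset.mem_Ico] at h3
          exact ha h3.2.le)
        rw [H.chp, nsmul_eq_mul] at h4
        push_cast at h4
        exact h4
      have h5 := Finset.sum_le_sum h3
      have h6 := tele ha a b (by omega)
      rw [← Finset.mul_sum] at h6
      have h7 : F f (2 ^ (b + 1)) ≤ F f (2 ^ (b + 2)) :=
        F_mono hf (Nat.pow_le_pow_right (by norm_num) (by omega))
      have h8 : 0 < F f (2 ^ (b + 1)) := by
        unfold F
        exact Finset.sum_pos (fun i _ => hf i) ⟨0, by simp⟩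
      linarith
    · intro i _ j _ hij
      show Disjoint (HP i) (HP j)
      rw [Finset.disjoint_left]
      intro x hx hx'
      exact hij (Bl_uniq (H.hp i hx) (H.hp j hx'))
  · -- elements of B₁
    intro x hx
    obtain ⟨c, hc, -, y, hy, rfl⟩ := mB x hx
    have h1 := H.lq (c + r) (he2 c y hy)
    unfold Bl at h1
    rw [Finset.mem_Ico] at h1
    exact le_trans (hpow (c + r) (by omega)) h1.1
  · -- elements of C₂
    intro x hx
    obtain ⟨c, hc, -, hy⟩ := mC x hx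
    have h1 := H.hp c hy
    unfold Bl at h1
    rw [Finset.mem_Ico] at h1
    exact le_trans (hpow c hc) h1.1
  · -- B is small
    refine ⟨fun N => ?_, fun N => ?_⟩
    · have h1 : B₁.filter (· < N) ⊆ ((Finset.Ico a b).filter fun c => 2 ^ (c + r + 1) < N).biUnion
          fun c => (HP c).image (e c) := by
        intro x hx
        rw [Finset.mem_filter] at hx
        obtain ⟨c, hc, hcb, y, hy, rfl⟩ := mB x hx.1
        rw [Finset.mem_biUnion]
        refine ⟨c, ?_, Finset.mem_image_of_mem _ hy⟩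
        rw [Finset.mem_filter, Finset.mem_Ico]
        refine ⟨⟨hc, hcb⟩, ?_⟩
        have h2 := H.lq (c + r) (he2 c y hy)
        unfold Bl at h2
        rw [Finset.mem_Ico] at h2
        exact lt_of_le_of_lt h2.1 hx.2
      obtain ⟨S, hS⟩ : ∃ S : Finset ℕ, S = (Finset.Ico a b).filter fun c => 2 ^ (c + r + 1) < N :=
        ⟨_, rfl⟩
      rw [← hS] at h1
      have hSm : ∀ c ∈ S, 2 ^ (c + r + 1) < N := by
        intro c hc
        rw [hS] at hc
        exact (Finset.mem_filter.1 hc).2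
      have h2 : (B₁.filter (· < N)).card ≤ ∑ c ∈ S, 2 ^ c := by
        refine (Finset.card_le_card h1).trans (Finset.card_biUnion_le.trans ?_)
        refine Finset.sum_le_sum fun c _ => ?_
        rw [← H.chp c]
        exact Finset.card_image_le
      have h3 : (∑ c ∈ S, 2 ^ c) * 2 ^ r ≤ N := by
        rcases S.eq_empty_or_nonempty with h0 | hne
        · rw [h0]
          simp
        · have h4 : S.max' hne ∈ S := S.max'_mem hne
          have h5 : 2 ^ (S.max' hne + r + 1) < N := hSm _ h4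
          have h6 : ∑ c ∈ S, 2 ^ c < 2 ^ (S.max' hne + 1) :=
            Nat.geomSum_lt le_rfl fun k hk => Nat.lt_succ_of_le (S.le_max' k hk)
          calc (∑ c ∈ S, 2 ^ c) * 2 ^ r ≤ 2 ^ (S.max' hne + 1) * 2 ^ r :=
                Nat.mul_le_mul_right _ h6.le
            _ = 2 ^ (S.max' hne + r + 1) := by ring
            _ ≤ N := h5.le
      have h7 : (((B₁.filter (· < N)).card : ℕ) : ℝ) * 2 ^ r ≤ N := by
        have h8 : (B₁.filter (· < N)).card * 2 ^ r ≤ N := (Nat.mul_le_mul_right _ h2).trans h3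
        exact_mod_cast h8
      have h9 : (1 / 2 : ℝ) ^ r * 2 ^ r = 1 := by
        rw [← mul_pow]
        norm_num
      have h10 : (0 : ℝ) < 2 ^ r := by positivity
      have hN0 : (0 : ℝ) ≤ N := Nat.cast_nonneg _
      have h11 : (((B₁.filter (· < N)).card : ℕ) : ℝ) ≤ (1 / 2 : ℝ) ^ r * N := by
        calc (((B₁.filter (· < N)).card : ℕ) : ℝ)
            = (1 / 2 : ℝ) ^ r * ((((B₁.filter (· < N)).card : ℕ) : ℝ) * 2 ^ r) := by
              rw [mul_comm (((B₁.filter (· < N)).card : ℕ) : ℝ), ← mul_assoc, h9, one_mul]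
          _ ≤ _ := mul_le_mul_of_nonneg_left h7 (by positivity)
      exact h11.trans (mul_le_mul_of_nonneg_right hr.le hN0)
    · simp only [Finset.filter_empty, Finset.sum_empty]
      exact mul_nonneg hε.le (F_nonneg hf N)
  · -- the injection
    refine ⟨Sum.elim Sum.inl fun x => Sum.inl (e (Nat.log 2 x - 1) x), ?_, ?_⟩
    · intro u hu v hv huv
      rw [Finset.mem_coe, Finset.mem_disjSum] at hu hv
      rcases hu with ⟨x, hx, -⟩ | ⟨x, hx, rfl⟩
      · simp at hx
      rcases hv with ⟨y, hy, -⟩ | ⟨y, hy, rfl⟩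
      · simp at hy
      obtain ⟨c, -, -, hxc⟩ := mC x hx
      obtain ⟨c', -, -, hyc⟩ := mC y hy
      simp only [Sum.elim_inr, Sum.inl.injEq] at huv
      rw [hlog c x hxc, hlog c' y hyc] at huv
      have h1 := H.lq (c + r) (he2 c x hxc)
      have h2 := H.lq (c' + r) (he2 c' y hyc)
      rw [← huv] at h2
      have h3 : c = c' := by
        have := Bl_uniq h1 h2
        omega
      subst h3
      rw [he1 c hxc hyc huv]
    · intro u hu
      rw [Finset.mem_disjSum] at hu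
      rcases hu with ⟨x, hx, -⟩ | ⟨x, hx, rfl⟩
      · simp at hx
      obtain ⟨c, hc, hcb, hxc⟩ := mC x hx
      simp only [Sum.elim_inr]
      rw [hlog c x hxc]
      refine ⟨?_, ?_⟩
      · rw [Finset.inl_mem_disjSum, hB₁, Finset.mem_biUnion]
        exact ⟨c, Finset.mem_Ico.2 ⟨hc, hcb⟩, Finset.mem_image_of_mem _ hxc⟩
      · have h1 := H.lqb (c + r) _ (he2 c x hxc)
        have h2 := hc₀ c (by omega)
        have h3 := H.hpb c x hxc
        omega

end Pool.Agent.J6H45.EW
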